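import Pool.Agent.TS.S.Lem

/-!
# TS/K-Kill: killing (paper section 2)

PLAN.  `C = {H | N ≤ H ∧ n ∣ H.index}` is a class (`Cls`): `H ⊓ cj b K ≥ N` (`N` normal: `N ≤ cj b K`), `n ∣ index` (`Subgroup.index_dvd_of_le` type lemma), finiteness of `G ⧸ H` from `N.FiniteIndex`.
The set `F` of the subgroups `H ≥ N` with `E H` is finite (subgroups of `G ⧸ N`: `Subgroup.comap`/`map` with `QuotientGroup.mk' N`, `Finite (Subgroup (G ⧸ N))`), take its `Finset`.  For a finset `s ⊆ F`: `y_s = h * ∏ H ∈ s, (1 - pc H)` is in `RC C` and `y_s - h ∈ RC {H | H ∈ C ∧ E H}`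
(`Finset.induction_on`: `y * pc H ∈ RC {..}` for `y ∈ RC C`, `N ≤ H`, `E H`: `closure_induction`, `pc_mul`: `pc H * pc K` resp. `pc K * pc H` with `K ∈ C`: `K ⊓ cj b H ∈ C`, `E (K ⊓ cj b H)` by `hE1`, `hE2`).
`y_F` is even on `𝒰`: by `hU` either `h U` or one factor `1 - pc H U` is even.  `lemS` for `y_F`; `h = y_F - (y_F - h)`.
-/

namespace Pool.Agent.TS

open MulAction Pool.Agent.H73.DU

variable {G : Type} [Group G]

/-- the subgroups over `N` of index divisible by `n` -/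
def CN (N : Subgroup G) (n : ℕ) : Set (Subgroup G) := {H | N ≤ H ∧ n ∣ H.index}

private theorem kill_le_cj {N H : Subgroup G} [N.Normal] (h : N ≤ H) (b : G) : N ≤ cj b H := by
  intro g hg
  refine mem_cj_iff.2 ⟨b * g * b⁻¹, h (Subgroup.Normal.conj_mem inferInstance g hg b), ?_⟩
  group

private theorem kill_fin {N H : Subgroup G} [N.FiniteIndex] (h : N ≤ H) : Finite (G ⧸ H) := by
  have : H.FiniteIndex := Subgroup.finiteIndex_of_le h
  exact Subgroup.finite_quotient_of_finiteIndex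

theorem cls_CN (N : Subgroup G) [N.Normal] [N.FiniteIndex] (n : ℕ) : Cls (CN N n) := by
  refine ⟨fun H hH => kill_fin hH.1, fun H hH K hK b => ⟨?_, ?_⟩⟩
  · exact le_inf hH.1 (kill_le_cj hK.1 b)
  · exact hH.2.trans (Subgroup.index_dvd_of_le inf_le_left)

private theorem kill_mul (N : Subgroup G) [N.Normal] [N.FiniteIndex] (n : ℕ)
    (E : Subgroup G → Prop) (hE1 : ∀ H H' : Subgroup G, H' ≤ H → E H → E H')
    (hE2 : ∀ (H : Subgroup G) (b : G), E H → E (cj b H)) {H : Subgroup G} (hN : N ≤ H)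
    (hE : E H) {y : Subgroup G → ℤ} (hy : y ∈ RC (CN N n)) :
    y * pc H ∈ RC {H | H ∈ CN N n ∧ E H} := by
  unfold RC at hy
  induction hy using AddSubgroup.closure_induction with
  | mem f hf =>
    obtain ⟨K, hK, rfl⟩ := hf
    have := kill_fin hK.1
    have := kill_fin hN
    refine pc_mul K H _ fun b => ?_
    refine AddSubgroup.subset_closure ⟨K ⊓ cj b H, ⟨⟨?_, ?_⟩, ?_⟩, rfl⟩
    · exact le_inf hK.1 (kill_le_cj hN b)
    · exact hK.2.trans (Subgroup.index_dvd_of_le inf_le_left)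
    · exact hE1 _ _ inf_le_right (hE2 H b hE)
  | zero =>
    rw [zero_mul]
    exact zero_mem _
  | add a b _ _ ha hb =>
    rw [add_mul]
    exact add_mem ha hb
  | neg a _ ha =>
    rw [neg_mul]
    exact neg_mem ha

private theorem kill_ind (N : Subgroup G) [N.Normal] [N.FiniteIndex] (n : ℕ)
    (E : Subgroup G → Prop) (hE1 : ∀ H H' : Subgroup G, H' ≤ H → E H → E H')
    (hE2 : ∀ (H : Subgroup G) (b : G), E H → E (cj b H)) {h : Subgroup G → ℤ}
    (hh : h ∈ RC (CN N n)) (s : Finset (Subgroup G)) (hs : ∀ H ∈ s, N ≤ H ∧ E H) :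
    h * ∏ H ∈ s, (1 - pc H) ∈ RC (CN N n) ∧
      h * ∏ H ∈ s, (1 - pc H) - h ∈ RC {H | H ∈ CN N n ∧ E H} := by
  classical
  have hle : RC {H | H ∈ CN N n ∧ E H} ≤ RC (CN N n) :=
    AddSubgroup.closure_mono fun f hf => by
      obtain ⟨H, hH, rfl⟩ := hf
      exact ⟨H, hH.1, rfl⟩
  induction s using Finset.induction_on with
  | empty =>
    rw [Finset.prod_empty, mul_one, sub_self]
    exact ⟨hh, zero_mem _⟩
  | insert H s hH ih =>
    obtain ⟨h1, h2⟩ := ih fun K hK => hs K (Finset.mem_insert_of_mem hK)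
    obtain ⟨h3, h4⟩ := hs H (Finset.mem_insert_self H s)
    have h5 := kill_mul N n E hE1 hE2 h3 h4 h1
    have h6 : h * ∏ K ∈ insert H s, (1 - pc K) =
        h * ∏ K ∈ s, (1 - pc K) - (h * ∏ K ∈ s, (1 - pc K)) * pc H := by
      rw [Finset.prod_insert hH]
      ring
    rw [h6]
    refine ⟨sub_mem h1 (hle h5), ?_⟩
    have h7 : h * ∏ K ∈ s, (1 - pc K) - (h * ∏ K ∈ s, (1 - pc K)) * pc H - h =
        (h * ∏ K ∈ s, (1 - pc K) - h) - (h * ∏ K ∈ s, (1 - pc K)) * pc H := by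
      ring
    rw [h7]
    exact sub_mem h2 h5

theorem lemK (N : Subgroup G) [N.Normal] [N.FiniteIndex] (n : ℕ) (E : Subgroup G → Prop)
    (hE1 : ∀ H H' : Subgroup G, H' ≤ H → E H → E H') (hE2 : ∀ (H : Subgroup G) (b : G), E H → E (cj b H))
    (𝒰 : Set (Subgroup G)) {h : Subgroup G → ℤ} (hh : h ∈ RC (CN N n))
    (hU : ∀ U ∈ 𝒰, (2 : ℤ) ∣ h U ∨ ∃ H : Subgroup G, N ≤ H ∧ E H ∧ ¬ (2 : ℤ) ∣ pc H U) :
    h ∈ MC (CN N n) 𝒰 ⊔ RC {H | H ∈ CN N n ∧ E H} := by
  classical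
  have : Finite (G ⧸ N) := kill_fin le_rfl
  have : Finite (Subgroup (G ⧸ N)) := inferInstance
  have hf1 : Finite ({H : Subgroup G | N ≤ H} : Set (Subgroup G)) :=
    Finite.of_equiv _ (QuotientGroup.comapMk'OrderIso N).toEquiv
  have hf2 : {H : Subgroup G | N ≤ H ∧ E H}.Finite :=
    (Set.finite_coe_iff.1 hf1).subset fun H hH => hH.1
  obtain ⟨h1, h2⟩ := kill_ind N n E hE1 hE2 hh hf2.toFinset fun H hH => (hf2.mem_toFinset.1 hH)
  refine AddSubgroup.mem_sup.2 ⟨_, lemS (cls_CN N n) 𝒰 h1 ?_, _, neg_mem h2, ?_⟩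
  · intro U hUm
    rw [Pi.mul_apply, Finset.prod_apply]
    rcases hU U hUm with h3 | ⟨H, hN, hE, h3⟩
    · exact Dvd.dvd.mul_right h3 _
    · refine Dvd.dvd.mul_left ?_ _
      have h4 : (2 : ℤ) ∣ (1 - pc H) U := by
        rw [Pi.sub_apply, Pi.one_apply]
        omega
      exact h4.trans (Finset.dvd_prod_of_mem (fun K : Subgroup G => (1 - pc K) U)
        (hf2.mem_toFinset.2 ⟨hN, hE⟩))
  · ring

end Pool.Agent.TS
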