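import Pool.Agent.TS.Defs
import Pool.Agent.H73.DU.Syl

/-!
# TS/K-Odd: a subgroup with an odd mark at a given element (paper section 3)

PLAN.  `pc_mod`: on the finite set of the points of `G ⧸ J` fixed by `t ^ (2 ^ a)` the element `t` acts as a permutation `σ` with `σ ^ (2 ^ a) = 1`; the number of fixed points of `σ` is congruent to the cardinality modulo `2` (`Equiv.Perm.card_fixedPoints_modEq`); both sets of fixed points
are `fx` (`fx_zpowers`).
`exists_odd`: let `m = 2 ^ a * q`, `q` odd, be the order of `t` in the finite group `G ⧸ N`; `t' = t ^ (2 ^ a)`, `t' ^ q ∈ N`; `Q = zpowers t' ⊔ N`; `R = Subgroup.normalizer Q`.  `Q.subgroupOf R` is normal in `R`, of finite index; `H / Q` a Sylow `2`-subgroup of `R / Q` (`exists_syl` of H73/DU/Syl with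
`G := R`, `N := Q.subgroupOf R`, `H := ⊤`, or `Sylow 2 (R ⧸ ..)` directly), mapped back to `G`: `Q ≤ H ≤ R`, `Q.relIndex H = 2 ^ k`, `H.relIndex R` odd.  The points `g H` fixed by `t'`: `g⁻¹ t' g ∈ H`; its `q`-th power is in `N ≤ Q`, and its `2 ^ k`-th power is in `Q` (`Q` normal in `H` of index `2 ^ k`:
`Subgroup.pow_index_mem` for `Q.subgroupOf H`), so `g⁻¹ t' g ∈ Q` (coprime exponents), so `g⁻¹ Q g ≤ Q`, equal (finite index over `N`: same relative index), `g ∈ R`; conversely for `g ∈ R` the point is fixed.  So `pc H (zpowers t') = H.relIndex R`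
(`Nat.card` of the image of `R` in `G ⧸ H`), odd; with `pc_mod` the mark at `zpowers t` is odd.
-/

namespace Pool.Agent.TS

open MulAction Pool.Agent.H73.DU

variable {G : Type} [Group G]

theorem pc_mod (J : Subgroup G) [Finite (G ⧸ J)] (t : G) (a : ℕ) :
    (2 : ℤ) ∣ pc J (Subgroup.zpowers t) - pc J (Subgroup.zpowers (t ^ 2 ^ a)) := by
  classical
  have hmem : ∀ x : G ⧸ J, x ∈ fx (G ⧸ J) (Subgroup.zpowers (t ^ 2 ^ a)) →
      t • x ∈ fx (G ⧸ J) (Subgroup.zpowers (t ^ 2 ^ a)) := by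
    intro x hx
    rw [fx_zpowers] at hx ⊢
    rw [smul_smul, ← pow_succ, pow_succ', mul_smul, hx]
  let f : Function.End (fx (G ⧸ J) (Subgroup.zpowers (t ^ 2 ^ a))) :=
    fun x => ⟨t • (x : G ⧸ J), hmem x x.2⟩
  have hpow : ∀ (n : ℕ) (x : fx (G ⧸ J) (Subgroup.zpowers (t ^ 2 ^ a))),
      (((f ^ n) x : fx (G ⧸ J) (Subgroup.zpowers (t ^ 2 ^ a))) : G ⧸ J) = t ^ n • (x : G ⧸ J) := by
    intro n
    induction n with
    | zero => intro x; rw [pow_zero, pow_zero, one_smul]; rfl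
    | succ n ih =>
      intro x
      rw [pow_succ', pow_succ', mul_smul, ← ih x]
      rfl
  have hf : f ^ 2 ^ a = 1 := by
    funext x
    refine Subtype.ext ?_
    rw [hpow]
    exact fx_zpowers.1 x.2
  haveI : Fintype (fx (G ⧸ J) (Subgroup.zpowers (t ^ 2 ^ a))) := Fintype.ofFinite _
  haveI : Fact (Nat.Prime 2) := ⟨Nat.prime_two⟩
  have h1 := Equiv.Perm.card_fixedPoints_modEq (p := 2) (n := a) hf
  rw [← Nat.card_eq_fintype_card, ← Nat.card_eq_fintype_card] at h1
  have h2 : Nat.card (Function.fixedPoints f) = Nat.card (fx (G ⧸ J) (Subgroup.zpowers t)) := by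
    refine Nat.card_congr ⟨fun x => ⟨(x.1 : G ⧸ J), ?_⟩, fun y => ⟨⟨(y : G ⧸ J), ?_⟩, ?_⟩, ?_, ?_⟩
    · rw [fx_zpowers]
      exact congrArg Subtype.val x.2
    · rw [fx_zpowers]
      have h3 := fx_zpowers.1 y.2
      have h4 : ∀ n : ℕ, t ^ n • (y : G ⧸ J) = y := by
        intro n
        induction n with
        | zero => rw [pow_zero, one_smul]
        | succ n ih => rw [pow_succ, mul_smul, h3, ih]
      exact h4 _
    · refine Subtype.ext ?_
      exact fx_zpowers.1 y.2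
    · intro x
      rfl
    · intro y
      rfl
  unfold pc pch
  rw [h2] at h1
  have h5 := (Nat.modEq_iff_dvd.1 h1)
  exact_mod_cast h5

private theorem odd_mem {Q : Subgroup G} {s : G} {q k : ℕ} (hq : ¬ 2 ∣ q) (h1 : s ^ q ∈ Q)
    (h2 : s ^ 2 ^ k ∈ Q) : s ∈ Q := by
  have hc : Nat.Coprime q (2 ^ k) :=
    Nat.Coprime.pow_right k ((Nat.coprime_comm.1 ((Nat.Prime.coprime_iff_not_dvd
      Nat.prime_two).2 hq)))
  have h3 : (1 : ℤ) = (q : ℤ) * Nat.gcdA q (2 ^ k) + ((2 ^ k : ℕ) : ℤ) * Nat.gcdB q (2 ^ k) := by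
    rw [← Nat.gcd_eq_gcd_ab, hc]
    rfl
  have h4 : s = (s ^ q) ^ Nat.gcdA q (2 ^ k) * (s ^ 2 ^ k) ^ Nat.gcdB q (2 ^ k) := by
    have h5 : s ^ (1 : ℤ) = s ^ ((q : ℤ) * Nat.gcdA q (2 ^ k) +
        ((2 ^ k : ℕ) : ℤ) * Nat.gcdB q (2 ^ k)) := by
      rw [← h3]
    rw [zpow_one, zpow_add, zpow_mul, zpow_mul, zpow_natCast, zpow_natCast] at h5
    exact h5
  rw [h4]
  exact Q.mul_mem (Q.zpow_mem h1 _) (Q.zpow_mem h2 _)

theorem exists_odd (N : Subgroup G) [N.Normal] [N.FiniteIndex] (t : G) :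
    ∃ (a q : ℕ) (H : Subgroup G), ¬ 2 ∣ q ∧ (t ^ 2 ^ a) ^ q ∈ N ∧ N ≤ H ∧
      ¬ (2 : ℤ) ∣ pc H (Subgroup.zpowers t) ∧
      ∀ u ∈ H, u * t ^ 2 ^ a * u⁻¹ ∈ Subgroup.zpowers (t ^ 2 ^ a) ⊔ N := by
  haveI : Fact (Nat.Prime 2) := ⟨Nat.prime_two⟩
  haveI : Finite (G ⧸ N) := Subgroup.finite_quotient_of_finiteIndex
  have hm : orderOf (t : G ⧸ N) ≠ 0 := (orderOf_pos _).ne'
  obtain ⟨a, q, hq, hmq⟩ := Nat.exists_eq_two_pow_mul_odd hm
  have hq2 : ¬ 2 ∣ q := by
    rw [← even_iff_two_dvd, Nat.not_even_iff_odd]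
    exact hq
  have htq : (t ^ 2 ^ a) ^ q ∈ N := by
    rw [← pow_mul, ← hmq, ← QuotientGroup.eq_one_iff, QuotientGroup.mk_pow]
    exact pow_orderOf_eq_one _
  obtain ⟨t', ht'⟩ : ∃ t', t' = t ^ 2 ^ a := ⟨_, rfl⟩
  obtain ⟨Q, hQ⟩ : ∃ Q, Q = Subgroup.zpowers t' ⊔ N := ⟨_, rfl⟩
  have hNQ : N ≤ Q := hQ ▸ le_sup_right
  have htQ : t' ∈ Q := by
    rw [hQ]
    exact (le_sup_left : Subgroup.zpowers t' ≤ _) (Subgroup.mem_zpowers t')
  haveI : Q.FiniteIndex := Subgroup.finiteIndex_of_le hNQ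
  have hQR : Q ≤ Subgroup.normalizer (Q : Set G) := Subgroup.le_normalizer
  obtain ⟨T, hT1, -, hT3⟩ := exists_syl (G := Subgroup.normalizer (Q : Set G)) 2
    (Q.subgroupOf (Subgroup.normalizer (Q : Set G))) ⊤ le_top
  obtain ⟨hT2, k, hk⟩ := hT1
  have hT4 : ¬ 2 ∣ T.index := by
    rw [Subgroup.relIndex_top_right] at hT3
    exact hT3
  obtain ⟨H, hH⟩ : ∃ H, H = T.map (Subgroup.normalizer (Q : Set G)).subtype := ⟨_, rfl⟩
  have hHR : H ≤ Subgroup.normalizer (Q : Set G) := by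
    rw [hH]
    rintro _ ⟨x, -, rfl⟩
    exact x.2
  have hHT : H.subgroupOf (Subgroup.normalizer (Q : Set G)) = T := by
    rw [hH]
    exact Subgroup.comap_map_eq_self_of_injective (Subgroup.subtype_injective _) _
  have hQH : Q ≤ H := by
    intro x hx
    rw [hH]
    exact ⟨⟨x, hQR hx⟩, hT2 hx, rfl⟩
  have hki : Q.relIndex H = 2 ^ k := by
    rw [← hk, hH]
    have h1 := Subgroup.relIndex_map_map_of_injective
      (H := Q.subgroupOf (Subgroup.normalizer (Q : Set G))) (K := T)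
      (Subgroup.subtype_injective (Subgroup.normalizer (Q : Set G)))
    rw [Subgroup.subgroupOf_map_subtype, inf_eq_left.2 hQR] at h1
    exact h1
  haveI hn : (Q.subgroupOf H).Normal := by
    refine (Subgroup.normal_subgroupOf_iff hQH).2 ?_
    intro h g hh hg
    exact (Subgroup.mem_normalizer_iff.1 (hHR hg) h).1 hh
  have hkey : ∀ g : G, g⁻¹ * t' * g ∈ H → g ∈ Subgroup.normalizer (Q : Set G) := by
    intro g hg
    have h1 : (g⁻¹ * t' * g) ^ q ∈ Q := by
      have h2 : (g⁻¹ * t' * g) ^ q = g⁻¹ * t' ^ q * g := by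
        have h3 := conj_pow (i := q) (a := g⁻¹) (b := t')
        rw [inv_inv] at h3
        exact h3
      rw [h2]
      apply hNQ
      have h4 : N.Normal := inferInstance
      have h5 := h4.conj_mem (t' ^ q) (by rw [ht']; exact htq) g⁻¹
      rwa [inv_inv] at h5
    have h2 : (g⁻¹ * t' * g) ^ 2 ^ k ∈ Q := by
      have h3 := Subgroup.pow_index_mem (Q.subgroupOf H) ⟨g⁻¹ * t' * g, hg⟩
      have h4 : (Q.subgroupOf H).index = 2 ^ k := hki
      rw [h4] at h3
      exact h3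
    have h3 := odd_mem hq2 h1 h2
    have h4 : Q.map (MulAut.conj g⁻¹).toMonoidHom ≤ Q := by
      conv_lhs => rw [hQ]
      rw [Subgroup.map_sup, sup_le_iff]
      constructor
      · rw [MonoidHom.map_zpowers, Subgroup.zpowers_le]
        have h5 : (MulAut.conj g⁻¹).toMonoidHom t' = g⁻¹ * t' * g := by
          simp [MulAut.conj_apply]
        rw [h5]
        exact h3
      · rintro _ ⟨x, hx, rfl⟩
        have h4 : N.Normal := inferInstance
        exact hNQ (h4.conj_mem x hx g⁻¹)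
    have h5 : (Q.map (MulAut.conj g⁻¹).toMonoidHom).index = Q.index := by
      have h6 := Subgroup.index_map_equiv Q (MulAut.conj g⁻¹)
      exact h6
    have h6 : Q ≤ Q.map (MulAut.conj g⁻¹).toMonoidHom := by
      have h7 := Subgroup.relIndex_mul_index h4
      rw [h5] at h7
      have h8 : Q.index ≠ 0 := Subgroup.FiniteIndex.index_ne_zero
      have h9 : (Q.map (MulAut.conj g⁻¹).toMonoidHom).relIndex Q = 1 :=
        Nat.eq_of_mul_eq_mul_right (Nat.pos_of_ne_zero h8) (by rw [h7, one_mul])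
      exact Subgroup.relIndex_eq_one.1 h9
    rw [Subgroup.mem_normalizer_iff]
    intro h
    constructor
    · intro hh
      obtain ⟨x, hx, hx'⟩ := h6 hh
      have h7 : g⁻¹ * x * g = h := by
        rw [← hx']
        simp [MulAut.conj_apply]
      have h8 : g * h * g⁻¹ = x := by
        rw [← h7]
        group
      rw [h8]
      exact hx
    · intro hh
      have h7 := h4 ⟨g * h * g⁻¹, hh, rfl⟩
      have h8 : (MulAut.conj g⁻¹).toMonoidHom (g * h * g⁻¹) = h := by
        simp [MulAut.conj_apply]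
        group
      rw [h8] at h7
      exact h7
  have hfix : fx (G ⧸ H) (Subgroup.zpowers t') =
      MulAction.orbit (Subgroup.normalizer (Q : Set G)) ((1 : G) : G ⧸ H) := by
    ext x
    induction x using QuotientGroup.induction_on with
    | H g =>
      rw [fx_zpowers, MulAction.mem_orbit_iff]
      constructor
      · intro h
        change ((t' * g : G) : G ⧸ H) = g at h
        rw [QuotientGroup.eq] at h
        have h1 : g⁻¹ * t' * g ∈ H := by
          have h2 := H.inv_mem h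
          have h3 : ((t' * g)⁻¹ * g)⁻¹ = g⁻¹ * t' * g := by group
          rwa [h3] at h2
        refine ⟨⟨g, hkey g h1⟩, ?_⟩
        change ((g * 1 : G) : G ⧸ H) = g
        rw [mul_one]
      · rintro ⟨r, hr⟩
        have hr' : ((r : G) : G ⧸ H) = g := by
          rw [← hr]
          change _ = (((r : G) * 1 : G) : G ⧸ H)
          rw [mul_one]
        rw [← hr']
        change ((t' * (r : G) : G) : G ⧸ H) = ((r : G) : G ⧸ H)
        rw [QuotientGroup.eq]
        have h1 : (t' * (r : G))⁻¹ * (r : G) = ((r : G)⁻¹ * t' * (r : G))⁻¹ := by group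
        rw [h1]
        refine H.inv_mem (hQH ?_)
        have h2 := (Subgroup.mem_normalizer_iff.1
          ((Subgroup.normalizer (Q : Set G)).inv_mem r.2) t').1 htQ
        rwa [inv_inv] at h2
  have hstab : MulAction.stabilizer (Subgroup.normalizer (Q : Set G)) ((1 : G) : G ⧸ H) = T := by
    rw [← hHT]
    ext r
    rw [MulAction.mem_stabilizer_iff, Subgroup.mem_subgroupOf]
    change (((r : G) * 1 : G) : G ⧸ H) = ((1 : G) : G ⧸ H) ↔ _
    rw [mul_one, QuotientGroup.eq, mul_one]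
    exact H.inv_mem_iff
  have hcard : pc H (Subgroup.zpowers t') = (T.index : ℤ) := by
    unfold pc pch
    rw [hfix, ← hstab, MulAction.index_stabilizer, Nat.card_coe_set_eq]
  haveI : H.FiniteIndex := Subgroup.finiteIndex_of_le hQH
  haveI : Finite (G ⧸ H) := Subgroup.finite_quotient_of_finiteIndex
  refine ⟨a, q, H, hq2, htq, hNQ.trans hQH, ?_, ?_⟩
  · intro h
    have h1 := pc_mod H t a
    rw [← ht'] at h1
    have h2 : (2 : ℤ) ∣ pc H (Subgroup.zpowers t') := by
      have h3 := dvd_sub h h1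
      rwa [sub_sub_cancel] at h3
    rw [hcard] at h2
    exact hT4 (by exact_mod_cast h2)
  · intro u hu
    rw [← ht', ← hQ]
    exact (Subgroup.mem_normalizer_iff.1 (hHR hu) t').1 htQ

end Pool.Agent.TS
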